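import Pool.Agent.Helper73.SM.GoalsK
import Pool.Agent.Helper80.SM.UDT

/-!
# Project KR (MP_c307ca_nt), packet KDT: the determinant of consecutive approximants
-/

set_option autoImplicit false

namespace Pool.Agent.Helper87.SM

open Finset Pool.Agent.Helper73.SM

theorem goalKDT (hS : StmtSAA) (hB : StmtBIN) (hU : StmtKCZ) : StmtKDT := by
  have cz1 : ∀ k m n : ℕ, 1 ≤ k → (ck k (m : ℤ) n n : ℝ) =
      (k : ℝ) ^ (2 * n) * Ring.choose ((n : ℝ) + (m : ℝ) / (k : ℝ)) n := fun k m n hk ↦ by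
    rw [hU.cast k (m : ℤ) n n hk, Int.cast_natCast]
  have cz2 : ∀ k m n : ℕ, 1 ≤ k → (ck k (-(m : ℤ)) n n : ℝ) =
      (k : ℝ) ^ (2 * n) * Ring.choose ((n : ℝ) - (m : ℝ) / (k : ℝ)) n := fun k m n hk ↦ by
    rw [hU.cast k (-(m : ℤ)) n n hk]
    congr 2
    push_cast
    ring
  -- the determinant
  have hdet : ∀ k m n N : ℕ, 1 ≤ m → m < k → 1 ≤ N →
      (PK k (m : ℤ) (n + 1) N * PK k (-(m : ℤ)) n N - PK k (m : ℤ) n N * PK k (-(m : ℤ)) (n + 1) N) *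
        ((n : ℤ) + 1) = 2 * (m : ℤ) * (k : ℤ) * ck k (m : ℤ) n n * ck k (-(m : ℤ)) n n := by
    intro k m n N hm hmk hN
    have hk : 1 ≤ k := by omega
    have h := Pool.Agent.Helper80.SM.pade_det hS hB ((m : ℝ) / (k : ℝ)) (1 / (N : ℝ)) n
    have hN0 : (N : ℝ) ≠ 0 := by
      have : (1 : ℝ) ≤ N := by exact_mod_cast hN
      positivity
    have hk0 : (k : ℝ) ≠ 0 := by
      have : (1 : ℝ) ≤ k := by exact_mod_cast hk
      positivity
    have a1 := hU.pa k m n N hk hN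
    have a2 := hU.pa k m (n + 1) N hk hN
    have b1 := hU.pb k m n N hk hN
    have b2 := hU.pb k m (n + 1) N hk hN
    have hreal : (((PK k (m : ℤ) (n + 1) N * PK k (-(m : ℤ)) n N -
        PK k (m : ℤ) n N * PK k (-(m : ℤ)) (n + 1) N) * ((n : ℤ) + 1) : ℤ) : ℝ) =
        ((2 * (m : ℤ) * (k : ℤ) * ck k (m : ℤ) n n * ck k (-(m : ℤ)) n n : ℤ) : ℝ) := by
      push_cast
      rw [a1, a2, b1, b2, cz1 k m n hk, cz2 k m n hk]
      obtain ⟨ν, hν⟩ : ∃ ν : ℝ, ν = (m : ℝ) / (k : ℝ) := ⟨_, rfl⟩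
      have hmν : (m : ℝ) = ν * k := by rw [hν]; field_simp
      rw [← hν] at h
      rw [← hν, hmν]
      obtain ⟨Q, hQ⟩ : ∃ Q : ℝ, Q = (k : ℝ) ^ 2 * (N : ℝ) := ⟨_, rfl⟩
      rw [← hQ]
      have e1 : Q ^ (n + 1) * PA ν (n + 1) (1 / (N : ℝ)) *
            (Q ^ n * PB ν n (1 / (N : ℝ))) -
          Q ^ n * PA ν n (1 / (N : ℝ)) *
            (Q ^ (n + 1) * PB ν (n + 1) (1 / (N : ℝ))) =
          -(Q ^ (2 * n + 1) * (PA ν n (1 / (N : ℝ)) *
            PB ν (n + 1) (1 / (N : ℝ)) - PA ν (n + 1) (1 / (N : ℝ)) *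
            PB ν n (1 / (N : ℝ)))) := by ring
      rw [e1]
      have e2 : ∀ D : ℝ, -(Q ^ (2 * n + 1) * D) * ((n : ℝ) + 1) =
          -(Q ^ (2 * n + 1)) * (D * ((n : ℝ) + 1)) := fun D ↦ by ring
      rw [e2, h]
      have e3 : Q ^ (2 * n + 1) * (1 / (N : ℝ)) ^ (2 * n + 1) = ((k : ℝ) ^ 2) ^ (2 * n + 1) := by
        rw [← mul_pow, hQ]
        congr 1
        field_simp
      have e4 : ((k : ℝ) ^ 2) ^ (2 * n + 1) = (k : ℝ) ^ 2 * ((k : ℝ) ^ (2 * n) * (k : ℝ) ^ (2 * n)) := by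
        ring
      rw [e4] at e3
      linear_combination (2 * ν * Ring.choose ((n : ℝ) + ν) n *
        Ring.choose ((n : ℝ) - ν) n) * e3
    exact_mod_cast hreal
  have hn0 : ∀ n : ℕ, ((n : ℤ) + 1) ≠ 0 := fun n ↦ by positivity
  have hdet' : ∀ k m n N : ℕ, 1 ≤ m → m < k → 1 ≤ N →
      PK k (m : ℤ) (n + 1) N * PK k (-(m : ℤ)) n N -
        PK k (m : ℤ) n N * PK k (-(m : ℤ)) (n + 1) N = DK k m n := by
    intro k m n N hm hmk hN
    unfold DK
    rw [← hdet k m n N hm hmk hN, Int.mul_ediv_cancel _ (hn0 n)]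
  have hmul : ∀ k m n : ℕ, 1 ≤ m → m < k → DK k m n * ((n : ℤ) + 1) =
      2 * (m : ℤ) * (k : ℤ) * ck k (m : ℤ) n n * ck k (-(m : ℤ)) n n := by
    intro k m n hm hmk
    have := hdet k m n 1 hm hmk le_rfl
    rw [hdet' k m n 1 hm hmk le_rfl] at this
    exact this
  -- bounds for the exponent
  have hνb : ∀ k m : ℕ, 1 ≤ m → m < k → 0 < (m : ℝ) / (k : ℝ) ∧ (m : ℝ) / (k : ℝ) < 1 := by
    intro k m hm hmk
    have hm0 : (0 : ℝ) < m := by exact_mod_cast hm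
    have hmk' : (m : ℝ) < k := by exact_mod_cast hmk
    have hk0 : (0 : ℝ) < k := hm0.trans hmk'
    exact ⟨by positivity, by rwa [div_lt_one hk0]⟩
  have hcz1 : ∀ k m n : ℕ, 1 ≤ m → m < k → (0 : ℝ) < ck k (m : ℤ) n n := fun k m n hm hmk ↦ by
    obtain ⟨h1, h2⟩ := hνb k m hm hmk
    rw [cz1 k m n (by omega)]
    have := hB.npos ((m : ℝ) / (k : ℝ)) n (by linarith) h2
    have hk0 : (0 : ℝ) < k := by
      have : 0 < k := by omega
      exact_mod_cast this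
    positivity
  have hcz2 : ∀ k m n : ℕ, 1 ≤ m → m < k → (0 : ℝ) < ck k (-(m : ℤ)) n n := fun k m n hm hmk ↦ by
    obtain ⟨h1, h2⟩ := hνb k m hm hmk
    rw [cz2 k m n (by omega)]
    have := hB.npos (-((m : ℝ) / (k : ℝ))) n (by linarith) (by linarith)
    rw [← sub_eq_add_neg] at this
    have hk0 : (0 : ℝ) < k := by
      have : 0 < k := by omega
      exact_mod_cast this
    positivity
  have hmulr : ∀ k m n : ℕ, 1 ≤ m → m < k → (DK k m n : ℝ) * ((n : ℝ) + 1) =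
      2 * (m : ℝ) * (k : ℝ) * ck k (m : ℤ) n n * ck k (-(m : ℤ)) n n := fun k m n hm hmk ↦ by
    exact_mod_cast hmul k m n hm hmk
  refine ⟨hdet', hmul, fun k m n hm hmk ↦ ?_, fun k m n hm hmk ↦ ?_⟩
  · have h1 : (0 : ℝ) < (DK k m n : ℝ) * ((n : ℝ) + 1) := by
      rw [hmulr k m n hm hmk]
      have := hcz1 k m n hm hmk
      have := hcz2 k m n hm hmk
      have hm0 : (0 : ℝ) < m := by exact_mod_cast hm
      have hk0 : (0 : ℝ) < k := by
        have : 0 < k := by omega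
        exact_mod_cast this
      positivity
    have h2 : (0 : ℝ) < DK k m n := by
      have h3 : (0 : ℝ) < (n : ℝ) + 1 := by positivity
      exact (pos_iff_pos_of_mul_pos h1).2 h3
    have h3 : 0 < DK k m n := by exact_mod_cast h2
    omega
  · obtain ⟨hν0, hν1⟩ := hνb k m hm hmk
    have hm0 : (0 : ℝ) < m := by exact_mod_cast hm
    have hmk' : (m : ℝ) ≤ k := by exact_mod_cast hmk.le
    have hk0 : (0 : ℝ) < k := by
      have : 0 < k := by omega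
      exact_mod_cast this
    have hp : (0 : ℝ) < (k : ℝ) ^ (2 * n) := by positivity
    have h1 : (ck k (m : ℤ) n n : ℝ) ≤ (k : ℝ) ^ (2 * n) * ((n : ℝ) + 1) := by
      rw [cz1 k m n (by omega)]
      have h2 := hB.le (1 - (m : ℝ) / (k : ℝ)) (n + 1) n (by linarith) (by linarith) (by omega)
      have e : ((n + 1 : ℕ) : ℝ) - (1 - (m : ℝ) / (k : ℝ)) = (n : ℝ) + (m : ℝ) / (k : ℝ) := by
        push_cast
        ring
      rw [e, Nat.choose_succ_self_right] at h2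
      push_cast at h2
      exact mul_le_mul_of_nonneg_left h2 hp.le
    have h2 : (ck k (-(m : ℤ)) n n : ℝ) ≤ (k : ℝ) ^ (2 * n) := by
      rw [cz2 k m n (by omega)]
      have h2 := hB.le ((m : ℝ) / (k : ℝ)) n n hν0.le hν1 le_rfl
      rw [Nat.choose_self, Nat.cast_one] at h2
      calc (k : ℝ) ^ (2 * n) * Ring.choose ((n : ℝ) - (m : ℝ) / (k : ℝ)) n
          ≤ (k : ℝ) ^ (2 * n) * 1 := mul_le_mul_of_nonneg_left h2 hp.le
        _ = (k : ℝ) ^ (2 * n) := mul_one _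
    have h3 : (0 : ℝ) < (n : ℝ) + 1 := by positivity
    have h5 : 2 * (m : ℝ) * (k : ℝ) ≤ 2 * (k : ℝ) ^ 2 := by nlinarith
    have h4 : (DK k m n : ℝ) * ((n : ℝ) + 1) ≤ 2 * (k : ℝ) ^ 2 * (k : ℝ) ^ (4 * n) * ((n : ℝ) + 1) := by
      rw [hmulr k m n hm hmk]
      calc 2 * (m : ℝ) * (k : ℝ) * (ck k (m : ℤ) n n : ℝ) * ck k (-(m : ℤ)) n n
          ≤ 2 * (k : ℝ) ^ 2 * ((k : ℝ) ^ (2 * n) * ((n : ℝ) + 1)) * (k : ℝ) ^ (2 * n) :=
            mul_le_mul (mul_le_mul h5 h1 (hcz1 k m n hm hmk).le (by positivity)) h2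
              (hcz2 k m n hm hmk).le (by positivity)
        _ = 2 * (k : ℝ) ^ 2 * (k : ℝ) ^ (4 * n) * ((n : ℝ) + 1) := by
            have : (k : ℝ) ^ (4 * n) = (k : ℝ) ^ (2 * n) * (k : ℝ) ^ (2 * n) := by
              rw [← pow_add]
              congr 1
              ring
            rw [this]
            ring
    exact le_of_mul_le_mul_right h4 h3

end Pool.Agent.Helper87.SM
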